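import Pool.Agent.Lib.SmJ.P.Weil
import Pool.Agent.Lib.SmJ.P.Coh
import Pool.Agent.Lib.SmJ.H.Defs

/-!
# HEIGHTS (MP_48b749_nt, MP_950c68_ag): definitions

`S : Sys G V V1 Pl` is the abstract structure of SMITH for Jacobians. `M` is the module of the roots of
unity of 2-power order. The places outside of `S.good` are the fixed bad places.

* `HData`, `HOk`: Weil pairings, degrees of the places, the normalisation `nm v` of the tame generator
  `sg v` (the order of a local cocycle `h : D v → M` is `nm v (h (sg v))`), the product formula and the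
  Hasse principle.
* `IsPr chi i y`: `y = (Psi, Q)` is a rigid Selmer element of level `i`: `Psi` is a Selmer cocycle of
  level `i` and `Q v`, `v` bad, a point with `Psi = dl chi (Q v)` on `D v`.
* `q H chi i y : M`: the height form; `bb`: its polar form.
* `IsRel`: the relaxed Selmer group (no condition at the bad places), `IsStr` the strict one.
* `CTr chi y b`: the rigid Cassels-Tate pairing of `y` with `b` in the relaxed Selmer group.
-/

set_option autoImplicit false

open Finset

namespace Pool.Agent.SmH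

open Pool.Agent.SmJ

/-- The additional data: Weil pairings, the inclusion of `±1`, the degrees of the places, the
normalisation of the tame generators. -/
structure HData (V M Pl : Type*) [AddCommGroup M] where
  e : ℕ → V → V → M
  j : ZMod 2 →+ M
  deg : Pl → ℕ
  nm : Pl → M →+ M

variable {G V V1 Pl M : Type*} [Group G] [AddCommGroup V] [DistribMulAction G V]
  [AddCommGroup V1] [Module (ZMod 2) V1] [AddCommGroup M] [DistribMulAction G M]

/-- The facts about the additional data. -/
structure HOk (S : Sys G V V1 Pl) (H : HData V M Pl) : Prop where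
  weil : Weil S H.e H.j
  inj : Function.Injective H.j
  two : ∀ m : M, (2 : ℕ) • m = 0 → ∃ a, H.j a = m
  tors : ∀ m : M, ∃ r : ℕ, (2 : ℕ) ^ r • m = 0
  half : ∀ m : M, ∃ m', (2 : ℕ) • m' = m
  act : ∀ m : M, ∃ N ∈ S.NN, ∀ s ∈ N, s • m = m
  sgM : ∀ v (m : M), S.sg v • m = m
  nm_inj : ∀ v, Function.Injective (H.nm v)
  nm_j : ∀ v a, H.nm v (H.j a) = H.j a
  /-- K1: the product formula -/
  prod : ∀ h : G → M, S.TF h → (∀ s t, h (s * t) = h s + s • h t) →
    ∑ᶠ v, H.deg v • H.nm v (h (S.sg v)) = 0
  /-- K2: the Hasse principle -/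
  hasse : ∀ c : G → G → M, S.TF2 c →
    (∀ s t w, c s t + c (s * t) w = s • c t w + c s (t * w)) →
    (∀ v, S.Coh (S.D v) c (fun _ _ => 0)) →
    ∃ b : G → M, S.TF b ∧ ∀ s t, c s t = b s + s • b t - b (s * t)

section defs

variable (S : Sys G V V1 Pl) (H : HData V M Pl) (chi : G → ZMod 2) (i : ℕ)

/-- Rigid Selmer elements of level `i`. -/
structure IsPr (y : (G → V) × (Pl → V)) : Prop where
  sel : S.IsSel chi i y.1
  loc : ∀ v, v ∉ S.good → ∀ s ∈ S.D v, y.1 s = dl chi (y.2 v) s
  off : ∀ v ∈ S.good, y.2 v = 0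

/-- The torsion element of `z` (of level `i` if `2 ^ (i + 1) z = 0`). -/
noncomputable def tor (z : V) : (G → V) × (Pl → V) :=
  open Classical in (dl chi z, fun v => if v ∈ S.good then 0 else z)

/-- The cochain `rho_Q` on `D v`: `e_(i+r) (Q, dl Q'' t)`, `2 ^ (i + r) Q = 0`, `2 ^ r Q'' = Q`. Its
coboundary is `e_i (dl Q s, s * dl Q t)`. -/
noncomputable def rhoQ (Q : V) (t : G) : M :=
  open Classical in
  if h : ∃ p : ℕ × V, (2 : ℕ) ^ (i + p.1) • Q = 0 ∧ (2 : ℕ) ^ p.1 • p.2 = Q then
    H.e (i + h.choose.1) Q (dl chi h.choose.2 t)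
  else 0

/-- `rho` splits the cup square of the cocycle `Psi` of level `i`. -/
def IsRho (Psi : G → V) (rho : G → M) : Prop :=
  S.TF rho ∧ ∀ s t, H.e i (Psi s) (tw chi s (Psi t)) = rho s + s • rho t - rho (s * t)

/-- The height form. -/
noncomputable def q (y : (G → V) × (Pl → V)) : M :=
  open Classical in
  if h : ∃ rho : G → M, IsRho S H chi i y.1 rho then
    ∑ᶠ v, H.deg v • H.nm v (h.choose (S.sg v) - rhoQ H chi i (y.2 v) (S.sg v))
  else 0

/-- The polar form of the height form. -/
noncomputable def bb (y y' : (G → V) × (Pl → V)) : M :=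
  q S H chi i (y + y') - q S H chi i y - q S H chi i y'

/-- The relaxed Selmer group: no condition at the bad places. -/
def IsRel (b : G → V1) : Prop := S.HomG b ∧ ∀ v ∈ S.good, S.loc v b ∈ S.Wl chi v

/-- The strict Selmer group. -/
def IsStr (b : G → V1) : Prop := S.IsSel1 chi b ∧ ∀ v, v ∉ S.good → S.loc v b = 0

/-- Data for the rigid pairing: `2 Q v = y.2 v` at the bad places. -/
def RLift (y : (G → V) × (Pl → V)) (hat : G → V) (Q : Pl → V) : Prop :=
  S.LiftData chi y.1 hat Q ∧ ∀ v, v ∉ S.good → (2 : ℕ) • Q v = y.2 v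

/-- The rigid Cassels-Tate pairing. -/
noncomputable def CTr (y : (G → V) × (Pl → V)) (b : G → V1) : ZMod 2 :=
  open Classical in
  if h : ∃ p : (G → V) × (Pl → V), RLift S chi y p.1 p.2 then
    ∑ᶠ v, S.sy v (S.xi chi h.choose.1 h.choose.2 v) (S.loc v b)
  else 0

end defs

end Pool.Agent.SmH
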