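import Pool.Agent.Lib.SmJ.Sys
import Pool.Agent.Lib.SmJ.I.ChOk
import Pool.Agent.Lib.Sm.I.ChOk

/-!
HEIGHTS (MP_48b749_nt): the structures of SMITH over `Sm` (genus one, `V1 = (ZMod 2)^2`) as
structures over `SmJ` (any `V1`).
-/

set_option autoImplicit false

open Polynomial

namespace Pool.Agent.SmH

/-- The alternating form on `(ZMod 2)^2` as a bilinear map. -/
def eeL : Sm.V1 →ₗ[ZMod 2] Sm.V1 →ₗ[ZMod 2] ZMod 2 :=
  LinearMap.mk₂ (ZMod 2) Sm.ee
    (fun x y z => by simp only [Sm.ee, Prod.fst_add, Prod.snd_add]; ring)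
    (fun a x y => by simp only [Sm.ee, Prod.smul_fst, Prod.smul_snd, smul_eq_mul]; ring)
    (fun x y z => by simp only [Sm.ee, Prod.fst_add, Prod.snd_add]; ring)
    (fun a x y => by simp only [Sm.ee, Prod.smul_fst, Prod.smul_snd, smul_eq_mul]; ring)

theorem ee_alt (w : Sm.V1) : Sm.ee w w = 0 := by
  revert w
  decide

theorem ee_nondeg (w : Sm.V1) (h : ∀ w', Sm.ee w w' = 0) : w = 0 := by
  revert w
  decide

theorem ee_comm (w w' : Sm.V1) : Sm.ee w w' = Sm.ee w' w := by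
  revert w w'
  decide

@[simp] theorem eeL_apply (x y : Sm.V1) : eeL x y = Sm.ee x y := rfl

section sys

variable {G V Pl : Type*} [Group G] [AddCommGroup V] [DistribMulAction G V]

/-- The structure `Sys` of SMITH over `SmJ`. -/
def sysJ (S : Sm.Sys G V Pl) : SmJ.Sys G V Sm.V1 Pl where
  NN := S.NN
  D := S.D
  phi := S.phi
  sg := S.sg
  eps := S.eps
  iota := S.iota
  e := eeL
  good := S.good
  inf := S.inf

theorem tw_eq (chi : G → ZMod 2) (s : G) (Q : V) : SmJ.tw chi s Q = Sm.tw chi s Q := rfl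

theorem dl_eq (chi : G → ZMod 2) (Q : V) (s : G) : SmJ.dl chi Q s = Sm.dl chi Q s := rfl

theorem tf_iff (S : Sm.Sys G V Pl) {α : Type*} (f : G → α) : (sysJ S).TF f ↔ S.TF f := Iff.rfl

theorem homG_iff (S : Sm.Sys G V Pl) {A : Type*} [AddCommGroup A] (f : G → A) :
    (sysJ S).HomG f ↔ S.HomG f := Iff.rfl

theorem sy_eq (S : Sm.Sys G V Pl) (v : Pl) (x y : Sm.V1 × Sm.V1) :
    (sysJ S).sy v x y = S.sy v x y := rfl

theorem zv_iff (S : Sm.Sys G V Pl) (chi : G → ZMod 2) (v : Pl) (c : G → V) :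
    (sysJ S).Zv chi v c ↔ S.Zv chi v c := Iff.rfl

theorem wl_eq (S : Sm.Sys G V Pl) (chi : G → ZMod 2) (v : Pl) :
    (sysJ S).Wl chi v = S.Wl chi v := rfl

theorem isSel_iff (S : Sm.Sys G V Pl) (chi : G → ZMod 2) (j : ℕ) (Psi : G → V) :
    (sysJ S).IsSel chi j Psi ↔ S.IsSel chi j Psi :=
  ⟨fun h => ⟨h.tf, h.coc, h.lev, h.loc⟩, fun h => ⟨h.tf, h.coc, h.lev, h.loc⟩⟩

theorem isSel1_iff (S : Sm.Sys G V Pl) (chi : G → ZMod 2) (b : G → Sm.V1) :
    (sysJ S).IsSel1 chi b ↔ S.IsSel1 chi b := Iff.rfl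

/-- `Sys.Ok` over `SmJ`. -/
theorem okJ {S : Sm.Sys G V Pl} (h : S.Ok) : (sysJ S).Ok where
  top_mem := h.top_mem
  inf_mem := h.inf_mem
  normal := h.normal
  two_pow := h.two_pow
  phi_mem := h.phi_mem
  sg_mem := h.sg_mem
  fin1 := inferInstance
  e_alt := ee_alt
  e_nondeg := ee_nondeg
  iota_inj := h.iota_inj
  iota_range := h.iota_range
  iota_fix := h.iota_fix
  half := h.half
  tors := h.tors
  act_fin := h.act_fin
  unr := h.unr
  good_fin := h.good_fin
  good_triv := h.good_triv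
  inf_not_good := h.inf_not_good
  homD := h.homD
  hasse := h.hasse
  recip := h.recip
  corr := h.corr
  dual := by
    intro W hW
    refine h.dual W fun v => ?_
    rw [hW v]
    simp [Nat.card_eq_fintype_card]
  fin_inv := h.fin_inv
  isot := h.isot

end sys

section tw

variable {k : Type} [Field k]

/-- The two elementary nilpotent matrices. -/
def E12 : Module.End (ZMod 2) Sm.V1 := LinearMap.inl _ _ _ ∘ₗ LinearMap.snd _ _ _

/-- The two elementary nilpotent matrices. -/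
def E21 : Module.End (ZMod 2) Sm.V1 := LinearMap.inr _ _ _ ∘ₗ LinearMap.fst _ _ _

theorem end_eq (f : Module.End (ZMod 2) Sm.V1) :
    f = (f (1, 0)).1 • (E12 * E21) + (f (0, 1)).1 • E12 + (f (1, 0)).2 • E21 +
      (f (0, 1)).2 • (E21 * E12) := by
  refine LinearMap.ext fun w => ?_
  have h1 : w = w.1 • ((1, 0) : Sm.V1) + w.2 • ((0, 1) : Sm.V1) := by
    ext <;> simp
  have h2 : f w = w.1 • f (1, 0) + w.2 • f (0, 1) := by
    conv_lhs => rw [h1]
    rw [map_add, map_smul, map_smul]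
  rw [h2]
  ext
  · simp [E12, E21]
    ring
  · simp [E12, E21]
    ring

theorem adjoin_top {ι : Type} (T : ι → Sm.V1 →ₗ[ZMod 2] Sm.V1)
    (symm : ∀ i w w', Sm.ee w' (T i w) = Sm.ee w (T i w'))
    (nondeg : ∀ w, w ≠ 0 → ∃ i, Sm.ee w (T i w) = 1) :
    Algebra.adjoin (ZMod 2) (Set.range T : Set (Module.End (ZMod 2) Sm.V1)) = ⊤ := by
  set A := Algebra.adjoin (ZMod 2) (Set.range T : Set (Module.End (ZMod 2) Sm.V1)) with hA
  have hT : ∀ i, (T i : Module.End (ZMod 2) Sm.V1) ∈ A := fun i =>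
    Algebra.subset_adjoin ⟨i, rfl⟩
  have hdiag : ∀ i, (T i (1, 0)).1 = (T i (0, 1)).2 := by
    intro i
    have h1 := symm i (1, 0) (0, 1)
    simpa [Sm.ee] using h1
  have h1 : (1 : Module.End (ZMod 2) Sm.V1) = E12 * E21 + E21 * E12 := by
    refine LinearMap.ext fun w => ?_
    ext <;> simp [E12, E21]
  have hoff : ∀ i, (T i (0, 1)).1 • E12 + (T i (1, 0)).2 • E21 ∈ A := by
    intro i
    have h2 : (T i (0, 1)).1 • E12 + (T i (1, 0)).2 • E21 =
        (T i : Module.End (ZMod 2) Sm.V1) - (T i (1, 0)).1 • 1 := by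
      rw [h1, eq_sub_iff_add_eq, smul_add]
      refine Eq.trans ?_ (end_eq (T i)).symm
      rw [← hdiag i]
      abel
    rw [h2]
    exact A.sub_mem (hT i) (A.smul_mem A.one_mem _)
  have hcase : ∀ x : ZMod 2, x = 0 ∨ x = 1 := by decide
  have hlow : ∀ i, Sm.ee (1, 0) (T i (1, 0)) = (T i (1, 0)).2 := fun i => by simp [Sm.ee]
  have hup : ∀ i, Sm.ee (0, 1) (T i (0, 1)) = (T i (0, 1)).1 := fun i => by simp [Sm.ee]
  have hsum : ∀ i, Sm.ee (1, 1) (T i (1, 1)) = (T i (0, 1)).1 + (T i (1, 0)).2 := by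
    intro i
    have h2 : T i (1, 1) = T i (1, 0) + T i (0, 1) := by
      rw [← map_add]
      simp
    rw [h2]
    simp only [Sm.ee, Prod.fst_add, Prod.snd_add, one_mul]
    rw [hdiag i]
    have h3 : ∀ x y z : ZMod 2, y + x + (x + z) = z + y := by decide
    exact h3 _ _ _
  obtain ⟨i1, hi1⟩ := nondeg (1, 0) (by decide)
  obtain ⟨i2, hi2⟩ := nondeg (0, 1) (by decide)
  obtain ⟨i3, hi3⟩ := nondeg (1, 1) (by decide)
  rw [hlow] at hi1
  rw [hup] at hi2
  rw [hsum] at hi3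
  have ho1 := hoff i1
  have ho2 := hoff i2
  have ho3 := hoff i3
  rw [hi1, one_smul] at ho1
  rw [hi2, one_smul] at ho2
  have hE : (E12 ∈ A) ∧ (E21 ∈ A) := by
    rcases hcase (T i1 (0, 1)).1 with h2 | h2
    · rw [h2, zero_smul, zero_add] at ho1
      rcases hcase (T i2 (1, 0)).2 with h3 | h3
      · rw [h3, zero_smul, add_zero] at ho2
        exact ⟨ho2, ho1⟩
      · rw [h3, one_smul] at ho2
        exact ⟨by simpa using A.sub_mem ho2 ho1, ho1⟩
    · rw [h2, one_smul] at ho1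
      rcases hcase (T i2 (1, 0)).2 with h3 | h3
      · rw [h3, zero_smul, add_zero] at ho2
        exact ⟨ho2, by simpa using A.sub_mem ho1 ho2⟩
      · rcases hcase (T i3 (0, 1)).1 with h4 | h4
        · rw [h4, zero_add] at hi3
          rw [h4, hi3, zero_smul, zero_add, one_smul] at ho3
          exact ⟨by simpa using A.sub_mem ho1 ho3, ho3⟩
        · rw [h4] at hi3
          have h5 : (T i3 (1, 0)).2 = 0 := by
            rcases hcase (T i3 (1, 0)).2 with h6 | h6
            · exact h6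
            · rw [h6] at hi3
              exact absurd hi3 (by decide)
          rw [h4, h5, zero_smul, add_zero, one_smul] at ho3
          exact ⟨ho3, by simpa using A.sub_mem ho1 ho3⟩
  rw [eq_top_iff]
  intro f _
  rw [end_eq f]
  exact A.add_mem (A.add_mem (A.add_mem (A.smul_mem (A.mul_mem hE.1 hE.2) _)
    (A.smul_mem hE.1 _)) (A.smul_mem hE.2 _)) (A.smul_mem (A.mul_mem hE.2 hE.1) _)

/-- The data over `SmJ`. -/
def twdJ (d : Sm.TwData k) : SmJ.TwData k Sm.V1 where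
  e := eeL
  alt := ee_alt
  nd := fun w hw => ee_nondeg w fun w' => (ee_comm w w').trans (hw w')
  h := d.h
  ell := d.ell
  u := d.u
  T := d.T
  Tc := d.Tc
  ell_monic := d.ell_monic
  ell_irr := d.ell_irr
  ell_inj := d.ell_inj
  u_nonsq := d.u_nonsq
  symm := d.symm
  gen := adjoin_top d.T d.symm d.nondeg

end tw

section ch

variable {k : Type} [Field k] {G V Pl : Type} [Group G] [AddCommGroup V] [DistribMulAction G V]
  {S : Sm.Sys G V Pl} {ch : k[X] → G → ZMod 2} {d : Sm.TwData k} {pl : k[X] → Pl}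

/-- The facts on the characters over `SmJ`. -/
theorem chOkJ (h : Sm.ChOk S ch d pl) : SmJ.ChOk (sysJ S) ch (twdJ d) pl where
  two := h.two
  e_eq := rfl
  hom := h.hom
  mul := h.mul
  kummer := h.kummer
  cst := h.cst
  u_ne := h.u_ne
  pl_inj := h.pl_inj
  pl_inf := h.pl_inf
  pl_cases := h.pl_cases
  good := h.good
  sg_self := h.sg_self
  sg_off := h.sg_off
  ph := h.ph
  inf_sg := h.inf_sg
  inf_phi := h.inf_phi
  tor := h.tor

end ch

end Pool.Agent.SmH
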