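import Pool.Agent.Lib.SmH.L.MainH
import Pool.Agent.Lib.SmH.L.HFactsOf
import Pool.Agent.Lib.SmH.I.GenF
import Pool.Agent.Lib.SmH.I.GenA
import Pool.Agent.Lib.SmH.I.Few17
import Pool.Agent.Lib.SmH.I.ThmA
import Pool.Agent.Lib.SmH.I.ThmT

/-!
HEIGHTS (MP_48b749_nt, MP_950c68_ag): the counting theorem without the hypotheses of block I.
-/

set_option autoImplicit false

open Polynomial

namespace Pool.Agent.SmH

open Pool.Agent.SmJ
open Pool.Agent.SmK (DD)
open Pool.Agent.Sm (ChebOdd)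

/-- **The counting theorem for the heights**, without the hypotheses of block I. -/
theorem main_of {k : Type} [Field k] {G V V1 Pl M : Type} [Group G] [AddCommGroup V]
    [DistribMulAction G V] [AddCommGroup V1] [Module (ZMod 2) V1] [AddCommGroup M]
    [DistribMulAction G M] {S : Sys G V V1 Pl} {H : HData V M Pl} {ch : k[X] → G → ZMod 2}
    {d : TwData k V1} {pl : k[X] → Pl} [Fintype V1] [Nontrivial V1] [Finite k] (hS : S.Ok)
    (hH : HOk S H) (hR : S.RecipM H.j) (hc : ChOk S ch d pl)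
    (hdeg : ∀ P : k[X], P.Monic → Irreducible P → H.deg (pl P) = P.natDegree) {a0 C : ℕ}
    (hC : ChebOdd S.NN (fun P => S.sg (pl P)) (fun P => S.phi (pl P)) (Nat.card k) a0 C)
    (ε : ℝ) (hε : 0 < ε) :
    ∃ m₀ : ℕ, ∀ m ≥ m₀, ∃ n₀ : ℕ, ∀ n ≥ n₀,
      (Nat.card {D : k[X] // D ∈ DD (badP d) n ∧ ∃ y, IsZ S H (ch D) m y} : ℝ) ≤
        ε * (Nat.card k : ℝ) ^ n :=
  main_H hS hH hc
    (fun m hm => gridThmA_of hS hc hC m hm (IC.zeroQ_of hS hH _) (genA hS hH hc hm))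
    (fun m hm => gridThmT_of hS hH hR hc hdeg hC m hm (genT_holds hS hH hc hm))
    (fun _ _ => eqvH hS hc (Nat.sub_le _ 1)) (fun _ _ => eqvH hS hc le_rfl)
    (fun _ _ => fewTyp hS hH hc (Nat.sub_le _ 1)) (fun _ _ => fewTyp hS hH hc le_rfl)
    (fun _ _ _ _ hp => hfacts_of hS hH hc hdeg hp) ε hε

end Pool.Agent.SmH
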