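import Pool.Agent.Lib.SmH.I.ThmAFin
import Pool.Agent.Lib.SmH.I.ThmTF
import Pool.Agent.Lib.SmH.I.GenF
import Pool.Agent.Lib.SmH.I.Few17
import Pool.Agent.Lib.SmH.L.MainH
import Pool.Agent.Lib.SmH.L.HFactsOf

/-!
# HEIGHTS (MP_48b749_nt, MP_950c68_ag): the main theorem

From the abstract properties of `S` (`Sys.Ok`), of the Weil pairing, the degrees and the tame
normalisations (`HOk`), of the characters (`ChOk`), reciprocity (`RecipM`) and the Chebotarev density
theorem (`ChebOdd`): for every `ε` and all large levels `m`, for all but `ε qⁿ` of the monic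
squarefree `D` of degree `n` prime to the bad primes there is no rigid Selmer element `y` of level `m`
whose top is not a torsion class with `q m y = 0`.
-/

set_option autoImplicit false

open Polynomial

namespace Pool.Agent.SmH

open Pool.Agent.SmJ
open Pool.Agent.SmK (DD)
open Pool.Agent.Sm (ChebOdd)

variable {k : Type} [Field k] {G V V1 Pl M : Type} [Group G] [AddCommGroup V]
  [DistribMulAction G V] [AddCommGroup V1] [Module (ZMod 2) V1] [AddCommGroup M]
  [DistribMulAction G M] {S : Sys G V V1 Pl} {H : HData V M Pl} {ch : k[X] → G → ZMod 2}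
  {d : TwData k V1} {pl : k[X] → Pl}

/-- **The main theorem on the heights.** -/
theorem main_heights [Fintype V1] [Nontrivial V1] [Finite k] (h : S.Ok) (hH : HOk S H)
    (hR : S.RecipM H.j) (hc : ChOk S ch d pl)
    (hdeg : ∀ P : k[X], P.Monic → Irreducible P → H.deg (pl P) = P.natDegree) {a0 C : ℕ}
    (hC : ChebOdd S.NN (fun P => S.sg (pl P)) (fun P => S.phi (pl P)) (Nat.card k) a0 C)
    (ε : ℝ) (hε : 0 < ε) :
    ∃ m₀ : ℕ, ∀ m ≥ m₀, ∃ n₀ : ℕ, ∀ n ≥ n₀,
      (Nat.card {D : k[X] // D ∈ DD (badP d) n ∧ ∃ y, IsZ S H (ch D) m y} : ℝ) ≤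
        ε * (Nat.card k : ℝ) ^ n :=
  main_H h hH hc (fun m hm => gridThmA_fin h hH hc hC m hm)
    (fun m hm => gridThmT h hH hR hc hdeg hC m hm)
    (fun _ _ => eqvH h hc (Nat.sub_le _ _)) (fun _ _ => eqvH h hc le_rfl)
    (fun _ _ => fewTyp h hH hc (Nat.sub_le _ _)) (fun _ _ => fewTyp h hH hc le_rfl)
    (fun _ _ _ _ hp => hfacts_of h hH hc hdeg hp) ε hε

end Pool.Agent.SmH
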